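import Pool.Agent.W516.K3.Defs4

set_option autoImplicit false

/-!
DH-HHG (helper516): the eigenspaces of the Hodge structure on the Clifford module.
-/

namespace Pool.Agent.W688.DH

open Module Pool.Agent.W516.K3

theorem T_HHG : Pool.Agent.W516.K3.S_HHG := by
  intro F T H _ _ _ _ _ _ b γ κ _ _ Φ σ σ' hγ hx hb s v h0 h1 hne
  have key : ∀ l, (γ σ * γ σ' - γ σ' * γ σ) (v l) =
      ((if s l = 0 then (1:F) else -1) * (2 * b σ σ')) • v l := by
    intro l
    have h := LinearMap.congr_fun (hγ σ σ') (v l)
    simp only [LinearMap.add_apply, Module.End.mul_apply, LinearMap.smul_apply,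
      Module.End.one_apply] at h
    rw [LinearMap.sub_apply, Module.End.mul_apply, Module.End.mul_apply]
    by_cases hs : s l = 0
    · rw [if_pos hs, one_mul, h0 l hs, map_zero, sub_zero]
      rw [h0 l hs, map_zero, add_zero] at h
      exact h
    · have hs1 : s l = 1 := by omega
      rw [if_neg hs, h1 l hs1, map_zero, zero_sub]
      rw [h1 l hs1, map_zero, zero_add] at h
      rw [h, neg_one_mul, neg_smul]
  have h2 := hx v
  have h3 : ∀ l, Φ (Function.update v l ((γ σ * γ σ' - γ σ' * γ σ) (v l))) =
      ((if s l = 0 then (1:F) else -1) * (2 * b σ σ')) * Φ v := by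
    intro l
    rw [key l, MultilinearMap.map_update_smul, Function.update_eq_self, smul_eq_mul]
  simp_rw [h3] at h2
  rw [← Finset.sum_mul, ← Finset.sum_mul] at h2
  have h4 : ∑ l, (if s l = 0 then (1:F) else -1) =
      2 * (Finset.univ.filter (fun l => s l = 0)).card - (Fintype.card κ : F) := by
    have : ∀ l, (if s l = 0 then (1:F) else -1) = 2 * (if s l = 0 then 1 else 0) - 1 := by
      intro l; split_ifs <;> norm_num
    simp_rw [this]
    rw [Finset.sum_sub_distrib, ← Finset.mul_sum, Finset.sum_boole]
    simp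
  rw [h4] at h2
  have h5 : 2 * ((Finset.univ.filter (fun l => s l = 0)).card : F) - (Fintype.card κ : F) ≠ 0 := by
    rw [sub_ne_zero]
    intro h6
    apply hne
    exact_mod_cast h6
  have h6 : (2 : F) * b σ σ' ≠ 0 := mul_ne_zero two_ne_zero hb
  rcases mul_eq_zero.1 h2 with h7 | h7
  · rcases mul_eq_zero.1 h7 with h8 | h8
    · exact absurd h8 h5
    · exact absurd h8 h6
  · exact h7

end Pool.Agent.W688.DH
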